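import Pool.Agent.Lib.LusinNovikov.Basic

set_option autoImplicit false

open Set Filter Topology

namespace Pool.Agent.MP_650f93_lc

variable {X : Type} [MeasurableSpace X]

/-- a Borel assignment of probability vectors on the classes of `F` -/
structure Asg (F : X → X → Prop) (f : X × X → ℝ) : Prop where
  meas : Measurable f
  nonneg : ∀ p, 0 ≤ f p
  supp : ∀ x z, ¬ F x z → f (x, z) = 0
  sum : ∀ x, HasSum (fun z => f (x, z)) 1

/-- the distance of the probability vectors at `x` and `y` -/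
noncomputable def dd (f : X × X → ℝ) (x y : X) : ℝ := ∑' z, |f (x, z) - f (y, z)|

variable {F : X → X → Prop}

theorem Asg.hasSum_dd {f : X × X → ℝ} (h : Asg F f) (x y : X) :
    HasSum (fun z => |f (x, z) - f (y, z)|) (dd f x y) :=
  ((h.sum x).summable.sub (h.sum y).summable).abs.hasSum

omit [MeasurableSpace X] in
theorem dd_nonneg (f : X × X → ℝ) (x y : X) : 0 ≤ dd f x y :=
  tsum_nonneg fun _ => abs_nonneg _

theorem Asg.dd_le {f : X × X → ℝ} (h : Asg F f) (x y : X) : dd f x y ≤ 2 := by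
  refine (hasSum_le (fun z => ?_) (h.hasSum_dd x y) ((h.sum x).add (h.sum y))).trans (by norm_num)
  have := h.nonneg (x, z)
  have := h.nonneg (y, z)
  rw [abs_le]; constructor <;> linarith

theorem Asg.measurable_dd [StandardBorelSpace X] (hF : Equivalence F) {γ : ℕ → X → X}
    (hγ : ∀ j, Measurable (γ j)) (hγ' : ∀ x y, F x y ↔ ∃ j, γ j x = y) {f : X × X → ℝ}
    (h : Asg F f) (j : ℕ) : Measurable (fun x => dd f x (γ j x)) := by
  classical
  let S : X → Set ℕ := fun x => {i | ∀ i' < i, γ i' x ≠ γ i x}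
  let T : ℕ → X → ℝ := fun i x =>
    (S x).indicator (fun i => |f (x, γ i x) - f (γ j x, γ i x)|) i
  have hT : ∀ i, Measurable (T i) := by
    intro i
    have e : T i = {x | i ∈ S x}.indicator fun x => |f (x, γ i x) - f (γ j x, γ i x)| := by
      funext x
      simp only [T, indicator, mem_ofPred_eq]
    rw [e]
    refine Measurable.indicator ?_ ?_
    · exact ((h.meas.comp (measurable_id.prodMk (hγ i))).sub
        (h.meas.comp ((hγ j).prodMk (hγ i)))).abs
    · have : {x | i ∈ S x} = ⋂ i' : ℕ, ⋂ _ : i' < i, {x | γ i' x = γ i x}ᶜ := by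
        ext x; simp [S]
      rw [this]
      exact MeasurableSet.iInter fun i' => MeasurableSet.iInter fun _ =>
        (measurableSet_eq_fun (hγ i') (hγ i)).compl
  have hsum : ∀ x, HasSum (fun i => T i x) (dd f x (γ j x)) := by
    intro x
    have hinj : Function.Injective (fun i : S x => γ i.1 x) := by
      rintro ⟨a, ha⟩ ⟨b, hb⟩ hab
      rcases lt_trichotomy a b with hlt | rfl | hlt
      · exact absurd hab (hb a hlt)
      · rfl
      · exact absurd hab.symm (ha b hlt)
    have h1 := (hinj.hasSum_iff (f := fun z => |f (x, z) - f (γ j x, z)|) (by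
      intro z hz
      have hxz : ¬ F x z := by
        intro hxz
        have hex := (hγ' x z).1 hxz
        refine hz ⟨⟨Nat.find hex, fun i' hi' he => Nat.find_min hex hi' ?_⟩, Nat.find_spec hex⟩
        rw [he]; exact Nat.find_spec hex
      have hyz : ¬ F (γ j x) z := fun hyz => hxz (hF.trans ((hγ' x _).2 ⟨j, rfl⟩) hyz)
      simp [h.supp x z hxz, h.supp _ z hyz])).2 (h.hasSum_dd x (γ j x))
    exact hasSum_subtype_iff_indicator.1 h1
  refine measurable_of_tendsto_metrizable (f := fun n x => ∑ i ∈ Finset.range n, T i x)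
    (fun n => Finset.measurable_fun_sum _ fun i _ => hT i) ?_
  rw [tendsto_pi_nhds]
  exact fun x => (hsum x).tendsto_sum_nat

/-- Cesaro weights -/
noncomputable def wt (a m : ℕ) : ℝ := if m ≤ a then 1 / ((a : ℝ) + 1) else 0

theorem wt_nonneg (a m : ℕ) : 0 ≤ wt a m := by
  unfold wt; split_ifs <;> positivity

theorem wt_le (a m : ℕ) : wt a m ≤ 1 / ((a : ℝ) + 1) := by
  unfold wt; split_ifs
  · exact le_rfl
  · positivity

theorem sum_wt {a k : ℕ} (h : a ≤ k) : ∑ m ∈ Finset.range (k + 1), wt a m = 1 := by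
  unfold wt
  rw [← Finset.sum_filter]
  have : (Finset.range (k + 1)).filter (fun m => m ≤ a) = Finset.range (a + 1) := by
    ext m; simp only [Finset.mem_filter, Finset.mem_range]; omega
  rw [this, Finset.sum_const, Finset.card_range, nsmul_eq_mul]
  push_cast
  field_simp

theorem sum_wt_sub_aux {a b k : ℕ} (hab : a ≤ b) (hb : b ≤ k) :
    ∑ m ∈ Finset.range (k + 1), |wt a m - wt b m| ≤ 2 * ((b : ℝ) - a) / ((b : ℝ) + 1) := by
  have hab' : (a : ℝ) ≤ b := by exact_mod_cast hab
  have h1 : ∀ m, |wt a m - wt b m| = wt b m + wt a m * (1 - 2 * (((a : ℝ) + 1) / ((b : ℝ) + 1))) := by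
    intro m
    unfold wt
    by_cases h1 : m ≤ a
    · rw [if_pos h1, if_pos (h1.trans hab), abs_of_nonneg]
      · field_simp; ring
      · rw [sub_nonneg]; gcongr
    · rw [if_neg h1, zero_sub, abs_neg, zero_mul, add_zero]
      exact abs_of_nonneg (wt_nonneg b m)
  simp only [h1]
  rw [Finset.sum_add_distrib, ← Finset.sum_mul, sum_wt hb, sum_wt (hab.trans hb)]
  apply le_of_eq
  field_simp; ring

theorem sum_wt_sub {a b k C : ℕ} (ha : a ≤ k) (hb : b ≤ k) (h1 : a ≤ b + C) (h2 : b ≤ a + C) :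
    ∑ m ∈ Finset.range (k + 1), |wt a m - wt b m| ≤ 2 * (C : ℝ) / ((a : ℝ) + 1) := by
  rcases le_total a b with h | h
  · refine (sum_wt_sub_aux h hb).trans ?_
    have : (b : ℝ) ≤ a + C := by exact_mod_cast h2
    have : (a : ℝ) ≤ b := by exact_mod_cast h
    gcongr; linarith
  · simp only [abs_sub_comm (wt a _)]
    refine (sum_wt_sub_aux h ha).trans ?_
    have : (a : ℝ) ≤ b + C := by exact_mod_cast h1
    gcongr; linarith

section diag

variable (γ : ℕ → X → X) (g : ℕ → ℕ → X × X → ℝ)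

/-- `k` is a good inner index for the outer index `m` -/
def Good (m k : ℕ) (x y : X) : Prop :=
  ∀ N : ℕ, ∃ k', N ≤ k' ∧ dd (g m k) x y ≤ dd (g m k') x y + 1 / ((m : ℝ) + 1)

def Ok (k : ℕ) : ℕ → X → Prop
  | r, x => (∀ m ≤ r, ∀ j ≤ m, Good g m k x (γ j x)) ∧
      ∀ j, ∀ _ : j < r, Ok k (r - (j + 1)) (γ j x)
termination_by r => r
decreasing_by omega

variable {γ g}

omit [MeasurableSpace X] in
theorem Ok.mono {k : ℕ} : ∀ (r r' : ℕ) (x : X), r' ≤ r → Ok γ g k r x → Ok γ g k r' x := by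
  intro r
  induction r using Nat.strong_induction_on with
  | _ r ih =>
    intro r' x h hr
    rw [Ok] at hr ⊢
    exact ⟨fun m hm => hr.1 m (hm.trans h), fun j hj =>
      ih (r - (j + 1)) (by omega) _ _ (by omega) (hr.2 j (by omega))⟩

theorem eventually_good (hg : ∀ m k, Asg F (g m k)) (m : ℕ) (x y : X) :
    ∀ᶠ k in atTop, Good g m k x y := by
  have hb : IsBoundedUnder (· ≤ ·) atTop (fun k => dd (g m k) x y) :=
    isBoundedUnder_of ⟨2, fun k => (hg m k).dd_le x y⟩
  have hb' : IsBoundedUnder (· ≥ ·) atTop (fun k => dd (g m k) x y) :=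
    isBoundedUnder_of ⟨0, fun k => dd_nonneg _ x y⟩
  have hη : (0 : ℝ) < 1 / ((m : ℝ) + 1) := Nat.one_div_pos_of_nat
  set L := limsup (fun k => dd (g m k) x y) atTop
  have h1 := eventually_lt_of_limsup_lt (u := fun k => dd (g m k) x y) (f := atTop)
    (b := L + 1 / ((m : ℝ) + 1) / 2) (by linarith) hb
  have h2 := frequently_lt_of_lt_limsup (u := fun k => dd (g m k) x y) (f := atTop)
    (b := L - 1 / ((m : ℝ) + 1) / 2) hb'.isCoboundedUnder_le (by linarith)
  filter_upwards [h1] with k hk N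
  obtain ⟨k', h3, h4⟩ := frequently_atTop.1 h2 N
  exact ⟨k', h3, by linarith⟩

theorem eventually_ok (hg : ∀ m k, Asg F (g m k)) :
    ∀ (r : ℕ) (x : X), ∀ᶠ k in atTop, Ok γ g k r x := by
  intro r
  induction r using Nat.strong_induction_on with
  | _ r ih =>
    intro x
    have h1 : ∀ᶠ k in atTop, ∀ m ∈ Finset.range (r + 1), ∀ j ∈ Finset.range (m + 1),
        Good g m k x (γ j x) :=
      (Finset.eventually_all _).2 fun m _ => (Finset.eventually_all _).2 fun j _ =>
        eventually_good hg m x _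
    have h2 : ∀ᶠ k in atTop, ∀ j ∈ Finset.range r, Ok γ g k (r - (j + 1)) (γ j x) :=
      (Finset.eventually_all _).2 fun j hj => ih _ (by have := Finset.mem_range.1 hj; omega) _
    filter_upwards [h1, h2] with k h1 h2
    rw [Ok]
    exact ⟨fun m hm j hj => h1 m (Finset.mem_range.2 (by omega)) j (Finset.mem_range.2 (by omega)),
      fun j hj => h2 j (Finset.mem_range.2 hj)⟩

theorem measurable_ok [StandardBorelSpace X] (hF : Equivalence F)
    (hγ : ∀ j, Measurable (γ j)) (hγ' : ∀ x y, F x y ↔ ∃ j, γ j x = y)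
    (hg : ∀ m k, Asg F (g m k)) (k : ℕ) : ∀ r : ℕ, MeasurableSet {x | Ok γ g k r x} := by
  intro r
  induction r using Nat.strong_induction_on with
  | _ r ih =>
    have e : {x | Ok γ g k r x} =
        (⋂ m : ℕ, ⋂ _ : m ≤ r, ⋂ j : ℕ, ⋂ _ : j ≤ m, ⋂ N : ℕ, ⋃ k' : ℕ, ⋃ _ : N ≤ k',
          {x | dd (g m k) x (γ j x) ≤ dd (g m k') x (γ j x) + 1 / ((m : ℝ) + 1)}) ∩
        ⋂ j : ℕ, ⋂ _ : j < r, γ j ⁻¹' {x | Ok γ g k (r - (j + 1)) x} := by
      ext x
      rw [mem_ofPred_eq, Ok]
      simp only [Good, mem_inter_iff, mem_iInter, mem_iUnion, mem_ofPred_eq, mem_preimage,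
        exists_prop]
    rw [e]
    refine MeasurableSet.inter ?_ ?_
    · exact MeasurableSet.iInter fun m => MeasurableSet.iInter fun _ =>
        MeasurableSet.iInter fun j => MeasurableSet.iInter fun _ =>
        MeasurableSet.iInter fun N => MeasurableSet.iUnion fun k' =>
        MeasurableSet.iUnion fun _ => measurableSet_le ((hg m k).measurable_dd hF hγ hγ' j)
          (((hg m k').measurable_dd hF hγ hγ' j).add_const _)
    · exact MeasurableSet.iInter fun j => MeasurableSet.iInter fun hj =>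
        hγ j (ih _ (by omega))

/-- two-level diagonalisation -/
theorem diagonal [StandardBorelSpace X] (hF : Equivalence F)
    (hγ : ∀ j, Measurable (γ j)) (hγ' : ∀ x y, F x y ↔ ∃ j, γ j x = y)
    (hg : ∀ m k, Asg F (g m k)) :
    ∃ h : ℕ → X × X → ℝ, (∀ k, Asg F (h k)) ∧ ∀ x y, F x y → ∀ t : ℝ,
      (∀ᶠ m in atTop, ∀ ε : ℝ, 0 < ε → ∀ᶠ k in atTop, dd (g m k) x y ≤ t + ε) →
      ∀ ε : ℝ, 0 < ε → ∀ᶠ k in atTop, dd (h k) x y ≤ t + ε := by
  classical
  let ρ : ℕ → X → ℕ := fun k x => Nat.findGreatest (fun r => Ok γ g k r x) k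
  have hρm : ∀ k, Measurable (ρ k) := fun k =>
    measurable_findGreatest fun r _ => measurable_ok hF hγ hγ' hg k r
  have hρk : ∀ k x, ρ k x ≤ k := fun k x => Nat.findGreatest_le k
  have hρok : ∀ k x, ρ k x ≠ 0 → Ok γ g k (ρ k x) x := fun k x h =>
    Nat.findGreatest_of_ne_zero rfl h
  have hρlip : ∀ k x j, ρ k x ≤ ρ k (γ j x) + (j + 1) := by
    intro k x j
    by_cases h : j < ρ k x
    · have h1 := hρok k x (by omega)
      rw [Ok] at h1
      have h2 : ρ k x - (j + 1) ≤ ρ k (γ j x) :=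
        Nat.le_findGreatest (by have := hρk k x; omega) (h1.2 j h)
      omega
    · omega
  have hρtop : ∀ x r, ∀ᶠ k in atTop, r ≤ ρ k x := by
    intro x r
    filter_upwards [eventually_ok (γ := γ) hg r x, eventually_ge_atTop r] with k h1 h2
    exact Nat.le_findGreatest h2 h1
  refine ⟨fun k p => ∑ m ∈ Finset.range (k + 1), wt (ρ k p.1) m * g m k p, fun k => ⟨?_, ?_, ?_, ?_⟩,
    ?_⟩
  · refine Finset.measurable_fun_sum _ fun m _ => Measurable.mul ?_ (hg m k).meas
    exact (measurable_of_countable (fun a => wt a m)).comp ((hρm k).comp measurable_fst)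
  · exact fun p => Finset.sum_nonneg fun m _ => mul_nonneg (wt_nonneg _ _) ((hg m k).nonneg p)
  · intro x z hxz
    exact Finset.sum_eq_zero fun m _ => by rw [(hg m k).supp x z hxz, mul_zero]
  · intro x
    have := hasSum_sum (s := Finset.range (k + 1))
      (fun m _ => ((hg m k).sum x).mul_left (wt (ρ k x) m))
    simp only [mul_one] at this
    rwa [sum_wt (hρk k x)] at this
  · intro x y hxy t ht ε hε
    obtain ⟨j, rfl⟩ := (hγ' x y).1 hxy
    obtain ⟨j', hj'⟩ := (hγ' _ x).1 (hF.symm hxy)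
    obtain ⟨m0, hm0⟩ := eventually_atTop.1 (ht.and ((eventually_ge_atTop j).and
      ((tendsto_one_div_add_atTop_nhds_zero_nat (𝕜 := ℝ)).eventually
        (ge_mem_nhds (show 0 < ε / 4 by positivity)))))
    have ht0 : 0 ≤ t + ε / 2 := by
      obtain ⟨k, hk⟩ := ((hm0 m0 le_rfl).1 (ε / 2) (half_pos hε)).exists
      exact (dd_nonneg _ _ _).trans hk
    obtain ⟨r, hr⟩ := exists_nat_ge ((2 * (m0 : ℝ) + 2 * ((j + j' + 1 : ℕ) : ℝ)) / (ε / 2))
    filter_upwards [hρtop x (r + 1)] with k hk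
    set a := ρ k x with ha
    set b := ρ k (γ j x) with hb
    have hok := hρok k x (by omega)
    rw [Ok] at hok
    have hab1 : a ≤ b + (j + j' + 1) := by have := hρlip k x j; omega
    have hab2 : b ≤ a + (j + j' + 1) := by
      have := hρlip k (γ j x) j'
      rw [hj'] at this
      omega
    have hgood : ∀ m, m0 ≤ m → m ≤ a → dd (g m k) x (γ j x) ≤ t + ε / 2 := by
      intro m h1 h2
      obtain ⟨h3, h4, h5⟩ := hm0 m h1
      obtain ⟨N, hN⟩ := eventually_atTop.1 (h3 (ε / 4) (by positivity))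
      obtain ⟨k', h6, h7⟩ := hok.1 m h2 j h4 N
      linarith [hN k' h6]
    have hS := (hasSum_sum (s := Finset.range (k + 1))
      (fun m _ => ((hg m k).hasSum_dd x (γ j x)).mul_left (wt a m))).add
      (hasSum_sum (s := Finset.range (k + 1))
        (fun m _ => ((hg m k).sum (γ j x)).mul_left |wt a m - wt b m|))
    have hle : dd (fun p => ∑ m ∈ Finset.range (k + 1), wt (ρ k p.1) m * g m k p) x (γ j x) ≤
        ∑ m ∈ Finset.range (k + 1), wt a m * dd (g m k) x (γ j x) +
          ∑ m ∈ Finset.range (k + 1), |wt a m - wt b m| * 1 := by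
      refine tsum_le_of_sum_le' ?_ fun s => ?_
      · exact hS.nonneg fun z => add_nonneg
          (Finset.sum_nonneg fun m _ => mul_nonneg (wt_nonneg _ _) (abs_nonneg _))
          (Finset.sum_nonneg fun m _ => mul_nonneg (abs_nonneg _) ((hg m k).nonneg _))
      refine le_trans (Finset.sum_le_sum fun z _ => ?_) (sum_le_hasSum s (fun z _ => add_nonneg
          (Finset.sum_nonneg fun m _ => mul_nonneg (wt_nonneg _ _) (abs_nonneg _))
          (Finset.sum_nonneg fun m _ => mul_nonneg (abs_nonneg _) ((hg m k).nonneg _))) hS)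
      rw [← Finset.sum_sub_distrib, ← Finset.sum_add_distrib]
      refine (Finset.abs_sum_le_sum_abs _ _).trans (Finset.sum_le_sum fun m _ => ?_)
      have e : wt a m * g m k (x, z) - wt b m * g m k (γ j x, z) =
          wt a m * (g m k (x, z) - g m k (γ j x, z)) + (wt a m - wt b m) * g m k (γ j x, z) := by
        ring
      simp only [← ha, ← hb]
      rw [e]
      refine (abs_add_le _ _).trans (le_of_eq ?_)
      rw [abs_mul, abs_mul, abs_of_nonneg (wt_nonneg a m), abs_of_nonneg ((hg m k).nonneg _)]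
    refine hle.trans ?_
    simp only [mul_one]
    have h1 := sum_wt_sub (hρk k x) (hρk k (γ j x)) hab1 hab2
    have h2 : ∑ m ∈ Finset.range (k + 1), wt a m * dd (g m k) x (γ j x) ≤
        t + ε / 2 + 2 * (m0 : ℝ) / ((a : ℝ) + 1) := by
      calc ∑ m ∈ Finset.range (k + 1), wt a m * dd (g m k) x (γ j x)
          ≤ ∑ m ∈ Finset.range (k + 1), (wt a m * (t + ε / 2) +
              if m < m0 then 2 / ((a : ℝ) + 1) else 0) := by
            refine Finset.sum_le_sum fun m _ => ?_
            have w0 := wt_nonneg a m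
            split_ifs with hm
            · have w1 := wt_le a m
              have d1 := (hg m k).dd_le x (γ j x)
              have d0 := dd_nonneg (g m k) x (γ j x)
              have : wt a m * dd (g m k) x (γ j x) ≤ 1 / ((a : ℝ) + 1) * 2 := by gcongr
              have e : 1 / ((a : ℝ) + 1) * 2 = 2 / ((a : ℝ) + 1) := by ring
              nlinarith [mul_nonneg w0 ht0]
            · rw [add_zero]
              by_cases hma : m ≤ a
              · exact mul_le_mul_of_nonneg_left (hgood m (not_lt.1 hm) hma) w0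
              · simp [wt, hma]
        _ ≤ t + ε / 2 + 2 * (m0 : ℝ) / ((a : ℝ) + 1) := by
            rw [Finset.sum_add_distrib, ← Finset.sum_mul, sum_wt (hρk k x), one_mul,
              ← Finset.sum_filter, Finset.sum_const, nsmul_eq_mul]
            have hc : ((Finset.range (k + 1)).filter (fun m => m < m0)).card ≤ m0 := by
              calc _ ≤ (Finset.range m0).card := Finset.card_le_card fun m hm =>
                    Finset.mem_range.2 (Finset.mem_filter.1 hm).2
                _ = m0 := Finset.card_range _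
            have hc' : (((Finset.range (k + 1)).filter (fun m => m < m0)).card : ℝ) ≤ m0 := by
              exact_mod_cast hc
            have : (((Finset.range (k + 1)).filter (fun m => m < m0)).card : ℝ) *
                (2 / ((a : ℝ) + 1)) ≤ m0 * (2 / ((a : ℝ) + 1)) := by gcongr
            have e : (m0 : ℝ) * (2 / ((a : ℝ) + 1)) = 2 * (m0 : ℝ) / ((a : ℝ) + 1) := by ring
            linarith
    have h3 : (2 * (m0 : ℝ) + 2 * ((j + j' + 1 : ℕ) : ℝ)) / ((a : ℝ) + 1) ≤ ε / 2 := by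
      have har : (r : ℝ) ≤ a + 1 := by
        have : r ≤ a + 1 := by omega
        exact_mod_cast this
      rw [div_le_iff₀ (half_pos hε)] at hr
      rw [div_le_iff₀ (by positivity)]
      nlinarith
    rw [add_div] at h3
    linarith

end diag

/-- reduction of the iterated Frechet filters to the Frechet filter -/
theorem reduce [StandardBorelSpace X] (hF : Equivalence F) {γ : ℕ → X → X}
    (hγ : ∀ j, Measurable (γ j)) (hγ' : ∀ x y, F x y ↔ ∃ j, γ j x = y)
    (Fr : Ordinal.{0} → Filter ℕ) (h1 : Fr 1 = cofinite)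
    (hstep : ∀ α : Ordinal.{0}, 1 < α → α.card ≤ Cardinal.aleph0 → ∃ G : ℕ → Ordinal.{0},
      (∀ m, 1 ≤ G m ∧ G m < α) ∧
      ∀ A : Set ℕ, A ∈ Fr α ↔ {m : ℕ | {n : ℕ | Nat.pair m n ∈ A} ∈ Fr (G m)} ∈ cofinite)
    (α : Ordinal.{0}) : 1 ≤ α → α.card ≤ Cardinal.aleph0 → ∀ f : ℕ → X × X → ℝ,
      (∀ n, Asg F (f n)) → ∃ h : ℕ → X × X → ℝ, (∀ k, Asg F (h k)) ∧ ∀ x y, F x y → ∀ t : ℝ,
        (∀ᶠ n in Fr α, dd (f n) x y ≤ t) →
        ∀ ε : ℝ, 0 < ε → ∀ᶠ k in atTop, dd (h k) x y ≤ t + ε := by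
  induction α using Ordinal.induction with
  | h α ih =>
    intro hα hc f hf
    rcases hα.eq_or_lt with rfl | hα
    · refine ⟨f, hf, fun x y _ t ht ε hε => ?_⟩
      rw [h1, Nat.cofinite_eq_atTop] at ht
      exact ht.mono fun k hk => by linarith
    obtain ⟨G, hG, hA⟩ := hstep α hα hc
    choose g hg hg' using fun m => ih (G m) (hG m).2 (hG m).1
      ((Ordinal.card_le_card (hG m).2.le).trans hc) (fun n => f (Nat.pair m n)) fun n => hf _
    obtain ⟨h, hh, hh'⟩ := diagonal hF hγ hγ' hg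
    refine ⟨h, hh, fun x y hxy t ht => hh' x y hxy t ?_⟩
    have := (hA _).1 ht
    rw [Nat.cofinite_eq_atTop] at this
    filter_upwards [this] with m hm
    exact hg' m x y hxy t hm

theorem main (Fr : Ordinal.{0} → Filter ℕ) (h1 : Fr 1 = Filter.cofinite)
    (h2 : ∀ β : Ordinal.{0}, 1 ≤ β → β.card ≤ Cardinal.aleph0 →
      ∀ A : Set ℕ, A ∈ Fr (β + 1) ↔
        {m : ℕ | {n : ℕ | Nat.pair m n ∈ A} ∈ Fr β} ∈ Filter.cofinite)
    (h3 : ∀ l : Ordinal.{0}, Order.IsSuccLimit l → l.card ≤ Cardinal.aleph0 →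
      ∃ s : ℕ → Ordinal.{0}, StrictMono s ∧ (∀ k, 1 ≤ s k) ∧ (⨆ k, s k) = l ∧
        ∀ A : Set ℕ, A ∈ Fr l ↔
          {m : ℕ | {n : ℕ | Nat.pair m n ∈ A} ∈ Fr (s m)} ∈ Filter.cofinite)
    (α : Ordinal.{0}) (hα : 1 ≤ α) (hc : α.card ≤ Cardinal.aleph0)
    [StandardBorelSpace X] (E : ℕ → X → X → Prop)
    (hE : ∀ i, Equivalence (E i))
    (hEm : ∀ i, MeasurableSet {p : X × X | E i p.1 p.2})
    (hEc : ∀ i x, Set.Countable {y : X | E i x y})
    (hEs : ∀ i x y, E i x y → E (i + 1) x y)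
    (hf : ∀ i, ∃ f : ℕ → X × X → ℝ, (∀ n, Measurable (f n)) ∧ (∀ n p, 0 ≤ f n p) ∧
        (∀ n x, HasSum (fun y : {y : X // E i x y} => f n (x, y.1)) 1) ∧
        (∀ x y, E i x y → Filter.Tendsto
          (fun n => ∑' z : {z : X // E i x z}, |f n (x, z.1) - f n (y, z.1)|)
          (Fr α) (nhds 0))) :
      ∃ f : ℕ → X × X → ℝ, (∀ n, Measurable (f n)) ∧ (∀ n p, 0 ≤ f n p) ∧
        (∀ n x, HasSum (fun y : {y : X // ∃ i, E i x y} => f n (x, y.1)) 1) ∧
        (∀ x y, (∃ i, E i x y) → Filter.Tendsto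
          (fun n => ∑' z : {z : X // ∃ i, E i x z}, |f n (x, z.1) - f n (y, z.1)|)
          (Fr α) (nhds 0)) := by
  classical
  have hstep : ∀ α : Ordinal.{0}, 1 < α → α.card ≤ Cardinal.aleph0 → ∃ G : ℕ → Ordinal.{0},
      (∀ m, 1 ≤ G m ∧ G m < α) ∧
      ∀ A : Set ℕ, A ∈ Fr α ↔ {m : ℕ | {n : ℕ | Nat.pair m n ∈ A} ∈ Fr (G m)} ∈ cofinite := by
    intro α hα hc
    rcases Ordinal.zero_or_succ_or_isSuccLimit α with rfl | ⟨β, rfl⟩ | hl
    · simp at hα
    · have hβ : 1 ≤ β := Order.lt_succ_iff.1 hα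
      exact ⟨fun _ => β, fun _ => ⟨hβ, Order.lt_succ β⟩,
        h2 β hβ ((Ordinal.card_le_card (Order.le_succ β)).trans hc)⟩
    · obtain ⟨s, hs, hs1, hs2, hs3⟩ := h3 α hl hc
      refine ⟨s, fun m => ⟨hs1 m, ?_⟩, hs3⟩
      rw [← hs2]
      exact (hs (Nat.lt_succ_self m)).trans_le (Ordinal.le_iSup s (m + 1))
  have hmono : ∀ i j x y, i ≤ j → E i x y → E j x y := by
    intro i j x y hij h
    induction j, hij using Nat.le_induction with
    | base => exact h
    | succ j _ ih => exact hEs j x y ih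
  let F : X → X → Prop := fun x y => ∃ i, E i x y
  have hF : Equivalence F := ⟨fun x => ⟨0, (hE 0).refl x⟩, fun ⟨i, h⟩ => ⟨i, (hE i).symm h⟩,
    fun ⟨i, h⟩ ⟨j, h'⟩ => ⟨max i j, (hE _).trans (hmono _ _ _ _ (le_max_left _ _) h)
      (hmono _ _ _ _ (le_max_right _ _) h')⟩⟩
  obtain ⟨γ, hγ, hγ'⟩ := Pool.Agent.Lib.LusinNovikov.exists_enum (F := F) (by
      have : {p : X × X | F p.1 p.2} = ⋃ i, {p : X × X | E i p.1 p.2} := by
        ext p; simp [F]
      rw [this]; exact MeasurableSet.iUnion hEm) (fun x => by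
      have : {y | F x y} = ⋃ i, {y | E i x y} := by
        ext p; simp [F]
      rw [this]; exact countable_iUnion fun i => hEc i x) hF.refl
  choose f hf1 hf2 hf3 hf4 using hf
  let f' : ℕ → ℕ → X × X → ℝ := fun i n => {p : X × X | E i p.1 p.2}.indicator (f i n)
  have hf' : ∀ i n, Asg F (f' i n) := fun i n =>
    ⟨(hf1 i n).indicator (hEm i), fun p => indicator_nonneg (fun p _ => hf2 i n p) p,
      fun x z h => indicator_of_notMem (s := {p : X × X | E i p.1 p.2}) (a := (x, z))
        (fun h' => h ⟨i, h'⟩) _, fun x =>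
        (hasSum_subtype_iff_indicator (s := {y | E i x y}) (f := fun y => f i n (x, y))).1
          (hf3 i n x)⟩
  have hdd : ∀ i n x y, E i x y →
      dd (f' i n) x y = ∑' z : {z : X // E i x z}, |f i n (x, z.1) - f i n (y, z.1)| := by
    intro i n x y hxy
    rw [show (∑' z : {z : X // E i x z}, |f i n (x, z.1) - f i n (y, z.1)|) =
      ∑' z, {z | E i x z}.indicator (fun z => |f i n (x, z) - f i n (y, z)|) z from
      tsum_subtype {z | E i x z} (fun z => |f i n (x, z) - f i n (y, z)|)]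
    refine tsum_congr fun z => ?_
    by_cases hz : E i x z
    · have hz' : E i y z := (hE i).trans ((hE i).symm hxy) hz
      simp [f', hz, hz']
    · have hz' : ¬ E i y z := fun h => hz ((hE i).trans hxy h)
      simp [f', hz, hz']
  choose g hg hg' using fun i => reduce hF hγ hγ' Fr h1 hstep α hα hc (f' i) (hf' i)
  obtain ⟨h, hh, hh'⟩ := diagonal hF hγ hγ' hg
  have hlim : ∀ x y, F x y → Tendsto (fun k => dd (h k) x y) atTop (𝓝 0) := by
    rintro x y ⟨i, hi⟩
    rw [Metric.tendsto_nhds]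
    intro ε hε
    have := hh' x y ⟨i, hi⟩ (ε / 3) (by
      filter_upwards [eventually_ge_atTop i] with m hm
      refine hg' m x y ⟨i, hi⟩ (ε / 3) ?_
      have h5 := (hf4 m x y (hmono _ _ _ _ hm hi)).eventually
        (ge_mem_nhds (show 0 < ε / 3 by positivity))
      exact h5.mono fun n hn => by rw [hdd m n x y (hmono _ _ _ _ hm hi)]; exact hn)
      (ε / 3) (by positivity)
    filter_upwards [this] with k hk
    rw [Real.dist_eq, sub_zero, abs_of_nonneg (dd_nonneg _ _ _)]
    linarith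
  obtain ⟨φ, hφ⟩ : ∃ φ : ℕ → ℕ, Tendsto φ (Fr α) atTop := by
    rcases hα.eq_or_lt with rfl | hα
    · exact ⟨id, by rw [h1, Nat.cofinite_eq_atTop]; exact tendsto_id⟩
    obtain ⟨G, -, hA⟩ := hstep α hα hc
    refine ⟨fun n => n.unpair.1, fun S hS => (hA _).2 ?_⟩
    rw [Nat.cofinite_eq_atTop]
    filter_upwards [hS] with m hm
    have : {n : ℕ | Nat.pair m n ∈ (fun n : ℕ => n.unpair.1) ⁻¹' S} = univ := by
      ext n; simpa using hm
    rw [this]
    exact univ_mem
  refine ⟨fun n => h (φ n), fun n => (hh _).meas, fun n => (hh _).nonneg, fun n x => ?_,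
    fun x y hxy => ?_⟩
  · refine (hasSum_subtype_iff_of_support_subset (s := {y | F x y})
      (f := fun y => h (φ n) (x, y)) fun y hy => ?_).2 ((hh _).sum x)
    by_contra hxy
    exact hy ((hh _).supp x y hxy)
  · refine ((hlim x y hxy).comp hφ).congr fun n => ?_
    refine (tsum_subtype_eq_of_support_subset (s := {z | F x z})
      (f := fun z => |h (φ n) (x, z) - h (φ n) (y, z)|) fun z hz => ?_).symm
    by_contra hxz
    have hyz : ¬ F y z := fun h' => hxz (hF.trans hxy h')
    exact hz (by simp [(hh _).supp x z hxz, (hh _).supp y z hyz])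

end Pool.Agent.MP_650f93_lc
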